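import Pool.Agent.R598.PM.Lo

set_option autoImplicit false

namespace Pool.Agent.Results.MP_d8a1a0_gt.CufBaseNotWeaklyLoeb

open Pool.Agent.W868 Pool.Agent.R598.PM

/-- There is a countable transitive model `M` of ZF with a topological space `(X, τ)` that is, in
`M`, compact and Hausdorff, has a cuf base and is not weakly Loeb. -/
theorem result : ∃ M : Set ZFSet.{0}, M.Countable ∧ IsZF M ∧ ∃ X ∈ M, ∃ τ ∈ M,
    IsTop M X τ ∧ IsComp M X τ ∧ IsHaus X τ ∧ CufBase M τ ∧ ¬ WeakLoeb M X τ := Lo.main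

end Pool.Agent.Results.MP_d8a1a0_gt.CufBaseNotWeaklyLoeb
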